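import Mathlib

/-!
# Lieb-Thirring ratios in dimension one: even potentials are as good as all potentials

For a potential `V` cut off to `[-R, R]`, put two mirror copies at distance `L > R` of the origin.
The negative eigenvalues and the phase space integral double.
-/

set_option autoImplicit false

open MeasureTheory Set Filter Topology
open scoped ENNReal ContDiff

namespace Pool.Agent.Y391.LT

/-- There is a space of dimension `n + 1` of smooth functions with compact support on which the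
quadratic form of `-d²/dx² + V` is at most `lam` times the square of the `L²`-norm. -/
def Trial (V : ℝ → ℝ) (n : ℕ) (lam : ℝ) : Prop :=
  ∃ W : Submodule ℂ (ℝ → ℂ), Module.finrank ℂ W = n + 1 ∧
    ∀ u ∈ W, ContDiff ℝ ∞ u ∧ HasCompactSupport u ∧
      (∫ x, ‖deriv u x‖ ^ 2) + ∫ x, V x * ‖u x‖ ^ 2 ≤ lam * ∫ x, ‖u x‖ ^ 2

/-- The `(n + 1)`-th min-max value of the quadratic form of `-d²/dx² + V`. -/
noncomputable def minMax (V : ℝ → ℝ) (n : ℕ) : EReal :=
  ⨅ (lam : ℝ) (_ : Trial V n lam), (lam : EReal)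

/-- The sum of the powers `γ` of the negative eigenvalues. -/
noncomputable def num (γ : ℝ) (V : ℝ → ℝ) : ℝ≥0∞ :=
  ∑' n : ℕ, (EReal.toENNReal (-(minMax V n))) ^ γ

/-- The phase space integral of `|p² + V(x)|_-^γ` for the measure `(2π)⁻¹ dx dp`. -/
noncomputable def den (γ : ℝ) (V : ℝ → ℝ) : ℝ≥0∞ :=
  ENNReal.ofReal (1 / (2 * Real.pi)) * ∫⁻ x : ℝ, ∫⁻ p : ℝ, (ENNReal.ofReal (-(p ^ 2 + V x))) ^ γ

/-- The potentials that are allowed. -/
def Adm (γ : ℝ) (V : ℝ → ℝ) : Prop :=
  Measurable V ∧ LocallyIntegrable (fun x => max (V x) 0) ∧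
    MemLp (fun x => max (-V x) 0) (ENNReal.ofReal (γ + 1 / 2)) ∧ ¬ ∀ᵐ x, max (-V x) 0 = 0

/-- The optimal ratio over all potentials. -/
noncomputable def ratio (γ : ℝ) : ℝ≥0∞ := ⨆ (V : ℝ → ℝ) (_ : Adm γ V), num γ V / den γ V

/-- The optimal ratio over the even potentials. -/
noncomputable def ratioEven (γ : ℝ) : ℝ≥0∞ :=
  ⨆ (V : ℝ → ℝ) (_ : Adm γ V ∧ ∀ x, V (-x) = V x), num γ V / den γ V

/-- Two mirror copies. -/
noncomputable def dbl (V : ℝ → ℝ) (R L : ℝ) (x : ℝ) : ℝ :=
  (Icc (-R) R).indicator V (x - L) + (Icc (-R) R).indicator V (-x - L)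

lemma dbl_even (V : ℝ → ℝ) (R L x : ℝ) : dbl V R L (-x) = dbl V R L x := by
  simp only [dbl, neg_neg]
  ring

lemma g_zero {V : ℝ → ℝ} {R y : ℝ} (hy : y < -R) : (Icc (-R) R).indicator V y = 0 :=
  indicator_of_notMem (fun h => absurd h.1 (not_le.2 hy)) V

lemma dbl_pos {V : ℝ → ℝ} {R L x : ℝ} (hL : R < L) (hx : 0 ≤ x) :
    dbl V R L x = (Icc (-R) R).indicator V (x - L) := by
  rw [dbl, g_zero (V := V) (y := -x - L) (by linarith), add_zero]

lemma dbl_neg {V : ℝ → ℝ} {R L x : ℝ} (hL : R < L) (hx : x ≤ 0) :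
    dbl V R L x = (Icc (-R) R).indicator V (-x - L) := by
  rw [dbl, g_zero (V := V) (y := x - L) (by linarith), zero_add]

lemma mp1 (L : ℝ) : MeasurePreserving (fun x : ℝ => x - L) := measurePreserving_sub_right volume L

lemma mp2 (L : ℝ) : MeasurePreserving (fun x : ℝ => -x - L) :=
  (measurePreserving_sub_right volume L).comp (Measure.measurePreserving_neg volume)

/-- Functions that vanish outside `[-R, R]`. -/
def supp (R : ℝ) : Submodule ℂ (ℝ → ℂ) where
  carrier := {u | ∀ x, R < |x| → u x = 0}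
  add_mem' := fun {a b} ha hb x hx => by simp [ha x hx, hb x hx]
  zero_mem' := fun x _ => rfl
  smul_mem' := fun c a ha x hx => by simp [ha x hx]

lemma supp_mono {R R' : ℝ} (h : R ≤ R') : supp R ≤ supp R' :=
  fun _ hu x hx => hu x (lt_of_le_of_lt h hx)

lemma exists_supp (W : Submodule ℂ (ℝ → ℂ)) (hfin : FiniteDimensional ℂ W)
    (h : ∀ u ∈ W, HasCompactSupport u) : ∃ R : ℝ, W ≤ supp R := by
  classical
  obtain ⟨S, hS⟩ : W.FG := Module.Finite.iff_fg.1 hfin
  have h1 : ∀ s ∈ S, ∃ R : ℝ, s ∈ supp R := by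
    intro s hs
    have hsW : s ∈ W := by
      rw [← hS]
      exact Submodule.subset_span hs
    obtain ⟨R, hR⟩ := (h s hsW).isCompact.isBounded.subset_closedBall (0 : ℝ)
    refine ⟨R, fun x hx => ?_⟩
    by_contra hne
    have h2 : x ∈ tsupport s := subset_tsupport s hne
    have h3 := hR h2
    rw [Metric.mem_closedBall, dist_zero_right, Real.norm_eq_abs] at h3
    linarith
  choose! r hr using h1
  obtain ⟨M, hM⟩ := (S.image r).exists_le
  refine ⟨M, ?_⟩
  rw [← hS]
  refine Submodule.span_le.2 fun s hs => ?_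
  exact supp_mono (hM _ (Finset.mem_image_of_mem r hs)) (hr s hs)

lemma trial_mono {V : ℝ → ℝ} {m k : ℕ} {lam : ℝ} (h : Trial V m lam) (hk : k ≤ m) :
    Trial V k lam := by
  obtain ⟨W, hW, hu⟩ := h
  have hle : k + 1 ≤ Module.finrank ℂ W := by omega
  obtain ⟨f, hf⟩ := exists_linearIndependent_of_le_finrank hle
  have hf2 : LinearIndependent ℂ (fun i => (f i : ℝ → ℂ)) :=
    hf.map' W.subtype (Submodule.ker_subtype W)
  refine ⟨Submodule.span ℂ (range fun i => (f i : ℝ → ℂ)), ?_, fun u hu' => hu u ?_⟩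
  · rw [finrank_span_eq_card hf2, Fintype.card_fin]
  · refine (Submodule.span_le.2 ?_) hu'
    rintro _ ⟨i, rfl⟩
    exact (f i).2

lemma minMax_le {V : ℝ → ℝ} {k : ℕ} {lam : ℝ} (h : Trial V k lam) : minMax V k ≤ (lam : EReal) :=
  iInf₂_le lam h

/-- The map which makes trial functions. -/
def mk (W : Submodule ℂ (ℝ → ℂ)) (L : ℝ) : (W × W) →ₗ[ℂ] (ℝ → ℂ) where
  toFun := fun w x => (w.1 : ℝ → ℂ) (x - L) + (w.2 : ℝ → ℂ) (-x - L)
  map_add' := fun a b => by
    funext x
    simp only [Prod.fst_add, Prod.snd_add, Submodule.coe_add, Pi.add_apply]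
    ring
  map_smul' := fun c a => by
    funext x
    simp only [Prod.smul_fst, Prod.smul_snd, Submodule.coe_smul, Pi.smul_apply, RingHom.id_apply,
      smul_eq_mul]
    ring

lemma mk_apply (W : Submodule ℂ (ℝ → ℂ)) (L : ℝ) (w : W × W) (x : ℝ) :
    mk W L w x = (w.1 : ℝ → ℂ) (x - L) + (w.2 : ℝ → ℂ) (-x - L) := rfl

section

variable {R L : ℝ}

lemma zero_of_lt {u : ℝ → ℂ} (hu : u ∈ supp R) {y : ℝ} (hy : y < -R) : u y = 0 := by
  refine hu y ?_
  have := neg_abs_le y
  linarith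

lemma deriv_zero {u : ℝ → ℂ} (hu : u ∈ supp R) {y : ℝ} (hy : y < -R) : deriv u y = 0 := by
  have h1 : u =ᶠ[𝓝 y] fun _ => 0 := by
    filter_upwards [Iio_mem_nhds hy] with z hz
    exact zero_of_lt hu hz
  rw [h1.deriv_eq, deriv_const]

lemma mk_inj {W : Submodule ℂ (ℝ → ℂ)} (hW : W ≤ supp R) (hL : R < L) (hR : 0 ≤ R) :
    Function.Injective (mk W L) := by
  rw [injective_iff_map_eq_zero]
  intro w hw
  have h1 : (w.1 : ℝ → ℂ) = 0 := by
    funext y
    by_cases hy : -R ≤ y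
    · have h2 := congrFun hw (y + L)
      rw [mk_apply, zero_of_lt (hW w.2.2) (y := -(y + L) - L) (by linarith)] at h2
      simpa using h2
    · exact zero_of_lt (hW w.1.2) (not_le.1 hy)
  have h3 : (w.2 : ℝ → ℂ) = 0 := by
    funext y
    by_cases hy : -R ≤ y
    · have h2 := congrFun hw (-(y + L))
      rw [mk_apply, zero_of_lt (hW w.1.2) (y := -(y + L) - L) (by linarith)] at h2
      simpa using h2
    · exact zero_of_lt (hW w.2.2) (not_le.1 hy)
  exact Prod.ext (Subtype.ext h1) (Subtype.ext h3)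

lemma int_two {A B : ℝ → ℝ} (hA : Integrable A) (hB : Integrable B) (L : ℝ) :
    ∫ x, (A (x - L) + B (-x - L)) = (∫ x, A x) + ∫ x, B x := by
  have h1 : Integrable (fun x => A (x - L)) := (mp1 L).integrable_comp_of_integrable hA
  have h2 : Integrable (fun x => B (-x - L)) := (mp2 L).integrable_comp_of_integrable hB
  rw [integral_add h1 h2, integral_sub_right_eq_self A L,
    integral_neg_eq_self (fun y => B (y - L)) volume, integral_sub_right_eq_self B L]

lemma norm_two {u v : ℝ → ℂ} (hu : u ∈ supp R) (hv : v ∈ supp R) (hL : R < L) (x : ℝ) :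
    ‖u (x - L) + v (-x - L)‖ ^ 2 = ‖u (x - L)‖ ^ 2 + ‖v (-x - L)‖ ^ 2 := by
  rcases le_total 0 x with hx | hx
  · rw [zero_of_lt hv (y := -x - L) (by linarith)]
    simp
  · rw [zero_of_lt hu (y := x - L) (by linarith)]
    simp

lemma pot_two {V : ℝ → ℝ} {u v : ℝ → ℂ} (hu : u ∈ supp R) (hv : v ∈ supp R) (hL : R < L)
    (x : ℝ) : dbl V R L x * ‖u (x - L) + v (-x - L)‖ ^ 2 =
      (Icc (-R) R).indicator V (x - L) * ‖u (x - L)‖ ^ 2 +
        (Icc (-R) R).indicator V (-x - L) * ‖v (-x - L)‖ ^ 2 := by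
  rcases le_total 0 x with hx | hx
  · rw [zero_of_lt hv (y := -x - L) (by linarith), dbl_pos hL hx]
    simp
  · rw [zero_of_lt hu (y := x - L) (by linarith), dbl_neg hL hx]
    simp

lemma deriv_two {u v : ℝ → ℂ} (hu : u ∈ supp R) (hv : v ∈ supp R) (hL : R < L)
    (du : Differentiable ℝ u) (dv : Differentiable ℝ v) (x : ℝ) :
    ‖deriv (fun x => u (x - L) + v (-x - L)) x‖ ^ 2 =
      ‖deriv u (x - L)‖ ^ 2 + ‖deriv v (-x - L)‖ ^ 2 := by
  have h1 : HasDerivAt (fun x => u (x - L)) (deriv u (x - L)) x :=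
    (du (x - L)).hasDerivAt.comp_sub_const x L
  have h2 : HasDerivAt (fun x : ℝ => -x - L) (-1) x := (hasDerivAt_neg x).sub_const L
  have h3 : HasDerivAt (fun x => v (-x - L)) ((-1 : ℝ) • deriv v (-x - L)) x :=
    HasDerivAt.scomp x (dv (-x - L)).hasDerivAt h2
  have h4 : HasDerivAt (fun x => u (x - L) + v (-x - L))
      (deriv u (x - L) + (-1 : ℝ) • deriv v (-x - L)) x := h1.add h3
  rw [h4.deriv]
  rcases le_total 0 x with hx | hx
  · rw [deriv_zero hv (y := -x - L) (by linarith)]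
    simp
  · rw [deriv_zero hu (y := x - L) (by linarith)]
    simp

lemma ind_mul {V : ℝ → ℝ} {u : ℝ → ℂ} (hu : u ∈ supp R) (x : ℝ) :
    (Icc (-R) R).indicator V x * ‖u x‖ ^ 2 = V x * ‖u x‖ ^ 2 := by
  by_cases hx : x ∈ Icc (-R) R
  · rw [indicator_of_mem hx]
  · have h1 : u x = 0 := by
      refine hu x ?_
      by_contra h
      exact hx (abs_le.1 (not_lt.1 h))
    rw [h1]
    simp

lemma int_sq {u : ℝ → ℂ} (h1 : Continuous u) (h2 : HasCompactSupport u) :
    Integrable (fun x => ‖u x‖ ^ 2) := by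
  refine (h1.norm.pow 2).integrable_of_hasCompactSupport ?_
  refine h2.comp_left (g := fun z : ℂ => ‖z‖ ^ 2) (by simp)

lemma int_pot {V : ℝ → ℝ} (hV : Integrable ((Icc (-R) R).indicator V)) {u : ℝ → ℂ}
    (h1 : Continuous u) (h2 : HasCompactSupport u) :
    Integrable (fun x => (Icc (-R) R).indicator V x * ‖u x‖ ^ 2) := by
  obtain ⟨C, hC⟩ := h2.exists_bound_of_continuous h1
  refine hV.mul_bdd (c := C ^ 2) (h1.norm.pow 2).aestronglyMeasurable ?_
  refine Eventually.of_forall fun x => ?_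
  rw [Real.norm_eq_abs, abs_of_nonneg (by positivity)]
  exact pow_le_pow_left₀ (norm_nonneg _) (hC x) 2

/-- **Doubling of the trial spaces.** -/
theorem trial_dbl {V : ℝ → ℝ} (hV : Integrable ((Icc (-R) R).indicator V)) (hL : R < L)
    (hR : 0 ≤ R) {n : ℕ} {lam : ℝ} {W : Submodule ℂ (ℝ → ℂ)} (hW : Module.finrank ℂ W = n + 1)
    (hu : ∀ u ∈ W, ContDiff ℝ ∞ u ∧ HasCompactSupport u ∧
      (∫ x, ‖deriv u x‖ ^ 2) + ∫ x, V x * ‖u x‖ ^ 2 ≤ lam * ∫ x, ‖u x‖ ^ 2)
    (hs : W ≤ supp R) : Trial (dbl V R L) (2 * n + 1) lam := by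
  have hfin : FiniteDimensional ℂ W := FiniteDimensional.of_finrank_pos (by omega)
  refine ⟨LinearMap.range (mk W L), ?_, ?_⟩
  · rw [LinearMap.finrank_range_of_inj (mk_inj hs hL hR), Module.finrank_prod, hW]
    ring
  · rintro _ ⟨⟨⟨u, huW⟩, ⟨v, hvW⟩⟩, rfl⟩
    obtain ⟨u1, u2, u3⟩ := hu u huW
    obtain ⟨v1, v2, v3⟩ := hu v hvW
    have su := hs huW
    have sv := hs hvW
    have e0 : mk W L (⟨u, huW⟩, ⟨v, hvW⟩) = fun x => u (x - L) + v (-x - L) := rfl
    rw [e0]
    have c1 : ContDiff ℝ ∞ (fun x : ℝ => x - L) := contDiff_id.sub contDiff_const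
    have c2 : ContDiff ℝ ∞ (fun x : ℝ => -x - L) := contDiff_id.neg.sub contDiff_const
    refine ⟨(u1.comp c1).add (v1.comp c2), ?_, ?_⟩
    · refine HasCompactSupport.intro (K := Icc (-(L + R)) (L + R)) isCompact_Icc fun x hx => ?_
      have h1 : u (x - L) = 0 := by
        refine su _ ?_
        by_contra h
        have h2 := abs_le.1 (not_lt.1 h)
        exact hx ⟨by linarith [h2.1], by linarith [h2.2]⟩
      have h3 : v (-x - L) = 0 := by
        refine sv _ ?_
        by_contra h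
        have h2 := abs_le.1 (not_lt.1 h)
        exact hx ⟨by linarith [h2.2], by linarith [h2.1]⟩
      rw [h1, h3, add_zero]
    · have du := u1.differentiable (by simp)
      have dv := v1.differentiable (by simp)
      have i1 := int_two (int_sq (u1.continuous_deriv (by simp)) u2.deriv)
        (int_sq (v1.continuous_deriv (by simp)) v2.deriv) L
      have i2 := int_two (int_pot hV u1.continuous u2) (int_pot hV v1.continuous v2) L
      have i3 := int_two (int_sq u1.continuous u2) (int_sq v1.continuous v2) L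
      simp only [pot_two su sv hL]
      simp only [deriv_two su sv hL du dv, norm_two su sv hL]
      rw [i1, i2, i3]
      simp only [ind_mul su, ind_mul sv]
      rw [mul_add]
      linarith

end

end Pool.Agent.Y391.LT
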