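import Pool.Agent.Y391.LT.Dbl

/-!
# Lieb-Thirring ratios in dimension one: the comparison
-/

set_option autoImplicit false

open MeasureTheory Set Filter Topology
open scoped ENNReal

namespace Pool.Agent.Y391.LT

/-- The inner integral. -/
noncomputable def F (γ v : ℝ) : ℝ≥0∞ := ∫⁻ p : ℝ, (ENNReal.ofReal (-(p ^ 2 + v))) ^ γ

lemma F_anti {γ : ℝ} (hγ : 0 < γ) : Antitone (F γ) := by
  intro v w h
  exact lintegral_mono fun p =>
    ENNReal.rpow_le_rpow (ENNReal.ofReal_le_ofReal (by linarith)) hγ.le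

lemma F_meas {γ : ℝ} (hγ : 0 < γ) : Measurable (F γ) := (F_anti hγ).measurable

lemma F_zero {γ : ℝ} (hγ : 0 < γ) : F γ 0 = 0 := by
  have h : ∀ p : ℝ, (ENNReal.ofReal (-(p ^ 2 + 0))) ^ γ = 0 := by
    intro p
    rw [ENNReal.ofReal_of_nonpos (by nlinarith [sq_nonneg p]), ENNReal.zero_rpow_of_pos hγ]
  simp only [F, h, lintegral_zero]

lemma F_le {γ : ℝ} (hγ : 0 < γ) (v : ℝ) :
    F γ v ≤ 2 * ENNReal.ofReal ((max (-v) 0) ^ (γ + 1 / 2)) := by
  set a := max (-v) 0 with ha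
  have ha0 : 0 ≤ a := le_max_right _ _
  have hav : -v ≤ a := le_max_left _ _
  have h1 : ∀ p : ℝ, (ENNReal.ofReal (-(p ^ 2 + v))) ^ γ ≤
      (Icc (-√a) (√a)).indicator (fun _ => ENNReal.ofReal (a ^ γ)) p := by
    intro p
    by_cases hp : p ∈ Icc (-√a) (√a)
    · rw [indicator_of_mem hp, ← ENNReal.ofReal_rpow_of_nonneg ha0 hγ.le]
      exact ENNReal.rpow_le_rpow (ENNReal.ofReal_le_ofReal (by nlinarith [sq_nonneg p])) hγ.le
    · rw [indicator_of_notMem hp]
      have h2 : a < p ^ 2 := by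
        by_contra h
        exact hp (abs_le.1 (Real.abs_le_sqrt (not_lt.1 h)))
      rw [ENNReal.ofReal_of_nonpos (by linarith), ENNReal.zero_rpow_of_pos hγ]
  calc F γ v ≤ ∫⁻ p, (Icc (-√a) (√a)).indicator (fun _ => ENNReal.ofReal (a ^ γ)) p :=
        lintegral_mono h1
    _ = ENNReal.ofReal (a ^ γ) * volume (Icc (-√a) (√a)) := by
        rw [lintegral_indicator_const measurableSet_Icc]
    _ = 2 * ENNReal.ofReal (a ^ (γ + 1 / 2)) := by
        rw [Real.volume_Icc, ← ENNReal.ofReal_mul (by positivity),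
          Real.rpow_add_of_nonneg ha0 hγ.le (by norm_num), ← Real.sqrt_eq_rpow,
          ← ENNReal.ofReal_ofNat 2, ← ENNReal.ofReal_mul (by norm_num)]
        congr 1
        ring

lemma den_eq (γ : ℝ) (V : ℝ → ℝ) :
    den γ V = ENNReal.ofReal (1 / (2 * Real.pi)) * ∫⁻ x, F γ (V x) := rfl

lemma den_ne_top {γ : ℝ} (hγ : 0 < γ) {V : ℝ → ℝ} (hV : Adm γ V) : den γ V ≠ ∞ := by
  rw [den_eq]
  refine ENNReal.mul_ne_top ENNReal.ofReal_ne_top (ne_of_lt ?_)
  have hp0 : ENNReal.ofReal (γ + 1 / 2) ≠ 0 := by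
    rw [Ne, ENNReal.ofReal_eq_zero, not_le]
    linarith
  have h1 := hV.2.2.1.integrable_norm_rpow hp0 ENNReal.ofReal_ne_top
  rw [ENNReal.toReal_ofReal (by linarith)] at h1
  have h2 : ∀ x, ‖max (-V x) 0‖ = max (-V x) 0 := fun x => by
    rw [Real.norm_eq_abs, abs_of_nonneg (le_max_right _ _)]
  simp only [h2] at h1
  calc ∫⁻ x, F γ (V x) ≤ ∫⁻ x, 2 * ENNReal.ofReal ((max (-V x) 0) ^ (γ + 1 / 2)) :=
        lintegral_mono fun x => F_le hγ _
    _ = 2 * ∫⁻ x, ENNReal.ofReal ((max (-V x) 0) ^ (γ + 1 / 2)) :=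
        lintegral_const_mul' _ _ (by norm_num)
    _ < ∞ := ENNReal.mul_lt_top (by norm_num) h1.lintegral_lt_top

lemma meas_g {V : ℝ → ℝ} (hV : Measurable V) (R : ℝ) : Measurable ((Icc (-R) R).indicator V) :=
  hV.indicator measurableSet_Icc

lemma den_dbl {γ : ℝ} (hγ : 0 < γ) {V : ℝ → ℝ} (hV : Measurable V) {R L : ℝ} (hL : R < L) :
    den γ (dbl V R L) ≤ 2 * den γ V := by
  have h1 : ∀ x, F γ (dbl V R L x) = F γ ((Icc (-R) R).indicator V (x - L)) +
      F γ ((Icc (-R) R).indicator V (-x - L)) := by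
    intro x
    rcases le_total 0 x with hx | hx
    · rw [dbl_pos hL hx, g_zero (V := V) (y := -x - L) (by linarith), F_zero hγ, add_zero]
    · rw [dbl_neg hL hx, g_zero (V := V) (y := x - L) (by linarith), F_zero hγ, zero_add]
  have hm : Measurable (fun y => F γ ((Icc (-R) R).indicator V y)) :=
    (F_meas hγ).comp (meas_g hV R)
  have h2 : ∫⁻ x, F γ (dbl V R L x) = 2 * ∫⁻ x, F γ ((Icc (-R) R).indicator V x) := by
    simp only [h1]
    have hm1 : Measurable (fun x => F γ ((Icc (-R) R).indicator V (x - L))) :=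
      hm.comp (mp1 L).measurable
    have e1 : ∫⁻ x, F γ ((Icc (-R) R).indicator V (x - L)) =
        ∫⁻ x, F γ ((Icc (-R) R).indicator V x) := (mp1 L).lintegral_comp hm
    have e2 : ∫⁻ x, F γ ((Icc (-R) R).indicator V (-x - L)) =
        ∫⁻ x, F γ ((Icc (-R) R).indicator V x) := (mp2 L).lintegral_comp hm
    rw [lintegral_add_left hm1, e1, e2, two_mul]
  have h3 : ∫⁻ x, F γ ((Icc (-R) R).indicator V x) ≤ ∫⁻ x, F γ (V x) := by
    refine lintegral_mono fun x => ?_
    by_cases hx : x ∈ Icc (-R) R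
    · simp only [indicator_of_mem hx, le_refl]
    · simp only [indicator_of_notMem hx, F_zero hγ, zero_le]
  rw [den_eq, den_eq, h2]
  calc _ ≤ ENNReal.ofReal (1 / (2 * Real.pi)) * (2 * ∫⁻ x, F γ (V x)) := by gcongr
    _ = _ := by ring

lemma int_g {γ : ℝ} (hγ : 1 / 2 ≤ γ) {V : ℝ → ℝ} (hV : Adm γ V) (R : ℝ) :
    Integrable ((Icc (-R) R).indicator V) := by
  rw [integrable_indicator_iff measurableSet_Icc]
  have h1 : IntegrableOn (fun x => max (V x) 0) (Icc (-R) R) :=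
    hV.2.1.integrableOn_isCompact isCompact_Icc
  have hp : (1 : ℝ≥0∞) ≤ ENNReal.ofReal (γ + 1 / 2) := by
    rw [← ENNReal.ofReal_one]
    exact ENNReal.ofReal_le_ofReal (by linarith)
  have h2 : IntegrableOn (fun x => max (-V x) 0) (Icc (-R) R) :=
    (hV.2.2.1.locallyIntegrable hp).integrableOn_isCompact isCompact_Icc
  have h3 : V = fun x => max (V x) 0 - max (-V x) 0 := by
    funext x
    rcases le_total 0 (V x) with h | h
    · rw [max_eq_left h, max_eq_right (by linarith)]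
      ring
    · rw [max_eq_right h, max_eq_left (by linarith)]
      ring
  rw [h3]
  exact h1.sub h2

lemma adm_dbl {γ : ℝ} (hγ : 1 / 2 ≤ γ) {V : ℝ → ℝ} (hV : Adm γ V) {R L : ℝ} (hL : R < L)
    (hne : ¬ ∀ᵐ x, x ∈ Icc (-R) R → max (-V x) 0 = 0) : Adm γ (dbl V R L) := by
  have hm := meas_g hV.1 R
  set g := (Icc (-R) R).indicator V with hg
  have hint := int_g hγ hV R
  rw [← hg] at hint
  have hdbl : dbl V R L = fun x => g (x - L) + g (-x - L) := rfl
  have i1 : Integrable (dbl V R L) := by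
    rw [hdbl]
    exact ((mp1 L).integrable_comp_of_integrable hint).add
      ((mp2 L).integrable_comp_of_integrable hint)
  have hneg : ∀ x, max (-dbl V R L x) 0 = max (-g (x - L)) 0 + max (-g (-x - L)) 0 := by
    intro x
    rcases le_total 0 x with hx | hx
    · rw [dbl_pos hL hx, hg, g_zero (V := V) (y := -x - L) (by linarith)]
      simp
    · rw [dbl_neg hL hx, hg, g_zero (V := V) (y := x - L) (by linarith)]
      simp
  have hgm : MemLp (fun x => max (-g x) 0) (ENNReal.ofReal (γ + 1 / 2)) := by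
    have h1 : (fun x => max (-g x) 0) = (Icc (-R) R).indicator (fun x => max (-V x) 0) := by
      funext x
      by_cases hx : x ∈ Icc (-R) R
      · rw [hg, indicator_of_mem hx, indicator_of_mem hx]
      · rw [hg, indicator_of_notMem hx, indicator_of_notMem hx]
        simp
    rw [h1]
    exact hV.2.2.1.indicator measurableSet_Icc
  refine ⟨?_, ?_, ?_, ?_⟩
  · rw [hdbl]
    exact (hm.comp (mp1 L).measurable).add (hm.comp (mp2 L).measurable)
  · exact (i1.pos_part).locallyIntegrable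
  · simp only [hneg]
    exact (hgm.comp_measurePreserving (mp1 L)).add (hgm.comp_measurePreserving (mp2 L))
  · intro h0
    apply hne
    have h1 : ∀ᵐ x, max (-g (x - L)) 0 = 0 := by
      filter_upwards [h0] with x hx
      rw [hneg] at hx
      have a1 : 0 ≤ max (-g (x - L)) 0 := le_max_right _ _
      have a2 : 0 ≤ max (-g (-x - L)) 0 := le_max_right _ _
      linarith
    have h2 : ∀ᵐ y, max (-g y) 0 = 0 := by
      have h3 := (measurePreserving_add_right (volume : Measure ℝ) L).quasiMeasurePreserving.ae h1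
      filter_upwards [h3] with y hy
      simpa using hy
    filter_upwards [h2] with y hy hyR
    rw [hg, indicator_of_mem hyR] at hy
    exact hy

lemma exists_R {γ : ℝ} {V : ℝ → ℝ} (hV : Adm γ V) : ∃ R0 : ℝ, ∀ R, R0 ≤ R →
    ¬ ∀ᵐ x, x ∈ Icc (-R) R → max (-V x) 0 = 0 := by
  by_contra hcon
  push Not at hcon
  apply hV.2.2.2
  have h1 : ∀ k : ℕ, ∀ᵐ x, x ∈ Icc (-(k : ℝ)) k → max (-V x) 0 = 0 := by
    intro k
    obtain ⟨R, hR, h⟩ := hcon k
    filter_upwards [h] with x hx hxk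
    exact hx ⟨by linarith [hxk.1], by linarith [hxk.2]⟩
  filter_upwards [ae_all_iff.2 h1] with x hx
  obtain ⟨k, hk⟩ := exists_nat_ge |x|
  exact hx k (abs_le.1 hk)

lemma sum_double (f : ℕ → ℝ≥0∞) (N : ℕ) :
    ∑ k ∈ Finset.range (2 * N), f k = ∑ n ∈ Finset.range N, (f (2 * n) + f (2 * n + 1)) := by
  induction N with
  | zero => simp
  | succ N ih =>
    rw [Finset.sum_range_succ, ← ih, show 2 * (N + 1) = 2 * N + 1 + 1 by ring,
      Finset.sum_range_succ, Finset.sum_range_succ, add_assoc]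

lemma exists_trial {V : ℝ → ℝ} {n : ℕ} {a : ℝ≥0∞} (h : a < (-(minMax V n)).toENNReal) :
    ∃ lam : ℝ, Trial V n lam ∧ a ≤ ENNReal.ofReal (-lam) := by
  have hpos : (0 : EReal) ≤ -(minMax V n) := by
    by_contra hneg
    rw [EReal.toENNReal_of_nonpos (not_le.1 hneg).le] at h
    exact absurd h ENNReal.not_lt_zero
  have h1 : (a : EReal) < -(minMax V n) := by
    rw [← EReal.coe_toENNReal hpos]
    exact_mod_cast h
  have h2 : minMax V n < -(a : EReal) := EReal.lt_neg_of_lt_neg h1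
  rw [minMax, iInf_lt_iff] at h2
  obtain ⟨lam, h3⟩ := h2
  rw [iInf_lt_iff] at h3
  obtain ⟨ht, h4⟩ := h3
  refine ⟨lam, ht, ?_⟩
  have h5 : (a : EReal) < -(lam : EReal) := EReal.lt_neg_of_lt_neg h4
  have h6 := EReal.toENNReal_le_toENNReal h5.le
  rw [EReal.toENNReal_coe, ← EReal.coe_neg, EReal.toENNReal_of_ne_top (EReal.coe_ne_top _),
    EReal.toReal_coe] at h6
  exact h6

lemma le_of_trial {V : ℝ → ℝ} {n : ℕ} {lam : ℝ} (h : Trial V n lam) :
    ENNReal.ofReal (-lam) ≤ (-(minMax V n)).toENNReal := by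
  have h1 : -(lam : EReal) ≤ -(minMax V n) := EReal.neg_le_neg_iff.2 (minMax_le h)
  have h6 := EReal.toENNReal_le_toENNReal h1
  rwa [← EReal.coe_neg, EReal.toENNReal_of_ne_top (EReal.coe_ne_top _),
    EReal.toReal_coe] at h6

theorem main_step {γ : ℝ} (hγ : 1 / 2 ≤ γ) {V : ℝ → ℝ} (hV : Adm γ V)
    (hS : ratioEven γ ≠ ∞) (N : ℕ) (a : ℕ → ℝ≥0∞)
    (ha : ∀ n, a n = 0 ∨ a n < (-(minMax V n)).toENNReal) :
    ∑ n ∈ Finset.range N, (a n) ^ γ ≤ ratioEven γ * den γ V := by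
  classical
  have hγ0 : 0 < γ := by linarith
  obtain ⟨R0, hR0⟩ := exists_R hV
  have h1 : ∀ n, ∃ r : ℝ, ∀ R L : ℝ, r ≤ R → 0 ≤ R → R < L →
      (a n = 0 ∨ ∃ lam : ℝ, a n ≤ ENNReal.ofReal (-lam) ∧ Trial (dbl V R L) (2 * n + 1) lam) := by
    intro n
    rcases ha n with h0 | h0
    · exact ⟨0, fun R L _ _ _ => Or.inl h0⟩
    · obtain ⟨lam, ⟨W, hW, hu⟩, hle⟩ := exists_trial h0
      have hfin : FiniteDimensional ℂ W := FiniteDimensional.of_finrank_pos (by omega)
      obtain ⟨r, hr⟩ := exists_supp W hfin fun u hu' => (hu u hu').2.1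
      exact ⟨r, fun R L hrR hR hL => Or.inr ⟨lam, hle,
        trial_dbl (int_g hγ hV R) hL hR hW hu (hr.trans (supp_mono hrR))⟩⟩
  choose r hr using h1
  obtain ⟨M, hM⟩ := ((Finset.range N).image r).exists_le
  set R := max (max M R0) 0 with hRdef
  have hRM : M ≤ R := (le_max_left _ _).trans (le_max_left _ _)
  have hRR0 : R0 ≤ R := (le_max_right _ _).trans (le_max_left _ _)
  have hR : 0 ≤ R := le_max_right _ _
  have hL : R < R + 1 := by linarith
  set V' := dbl V R (R + 1) with hV'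
  have hadm : Adm γ V' := adm_dbl hγ hV hL (hR0 R hRR0)
  have h2 : num γ V' / den γ V' ≤ ratioEven γ :=
    le_iSup₂_of_le V' ⟨hadm, fun x => dbl_even V R (R + 1) x⟩ le_rfl
  have h3 : num γ V' ≤ ratioEven γ * den γ V' :=
    (ENNReal.div_le_iff_le_mul (Or.inr hS) (Or.inl (den_ne_top hγ0 hadm))).1 h2
  have h4 : ∀ n ∈ Finset.range N, ∀ k, k ≤ 2 * n + 1 →
      (a n) ^ γ ≤ ((-(minMax V' k)).toENNReal) ^ γ := by
    intro n hn k hk
    refine ENNReal.rpow_le_rpow ?_ hγ0.le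
    rcases hr n R (R + 1) ((hM _ (Finset.mem_image_of_mem r hn)).trans hRM) hR hL with h | h
    · rw [h]
      simp
    · obtain ⟨lam, h5, h6⟩ := h
      exact h5.trans (le_of_trial (trial_mono h6 hk))
  have h7 : 2 * ∑ n ∈ Finset.range N, (a n) ^ γ ≤ num γ V' := by
    calc 2 * ∑ n ∈ Finset.range N, (a n) ^ γ
        = ∑ n ∈ Finset.range N, ((a n) ^ γ + (a n) ^ γ) := by
          rw [Finset.sum_add_distrib, two_mul]
      _ ≤ ∑ n ∈ Finset.range N, (((-(minMax V' (2 * n))).toENNReal) ^ γ +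
            ((-(minMax V' (2 * n + 1))).toENNReal) ^ γ) :=
          Finset.sum_le_sum fun n hn =>
            add_le_add (h4 n hn _ (by omega)) (h4 n hn _ le_rfl)
      _ = ∑ k ∈ Finset.range (2 * N), ((-(minMax V' k)).toENNReal) ^ γ :=
          (sum_double (fun k => ((-(minMax V' k)).toENNReal) ^ γ) N).symm
      _ ≤ num γ V' := ENNReal.sum_le_tsum _
  have h8 : 2 * ∑ n ∈ Finset.range N, (a n) ^ γ ≤ 2 * (ratioEven γ * den γ V) := by
    calc _ ≤ ratioEven γ * den γ V' := h7.trans h3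
      _ ≤ ratioEven γ * (2 * den γ V) := by
          gcongr
          exact den_dbl hγ0 hV.1 hL
      _ = _ := by ring
  exact (ENNReal.mul_le_mul_iff_right (by norm_num) (by norm_num)).1 h8

theorem main (γ : ℝ) (hγ : 1 / 2 ≤ γ) : ratioEven γ = ratio γ := by
  refine le_antisymm ?_ ?_
  · exact iSup₂_le fun V hV => le_iSup₂_of_le V hV.1 le_rfl
  · refine iSup₂_le fun V hV => ?_
    by_cases hS : ratioEven γ = ∞
    · rw [hS]
      exact le_top
    refine ENNReal.div_le_of_le_mul ?_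
    rw [num, ENNReal.tsum_eq_iSup_nat]
    refine iSup_le fun N => ?_
    have h1 : ∀ n : ℕ, ∃ s : ℕ → ℝ≥0∞, (∀ k, s k = 0 ∨ s k < (-(minMax V n)).toENNReal) ∧
        Tendsto s atTop (𝓝 (-(minMax V n)).toENNReal) := by
      intro n
      rcases eq_or_ne ((-(minMax V n)).toENNReal) 0 with h0 | h0
      · rw [h0]
        exact ⟨fun _ => 0, fun _ => Or.inl rfl, tendsto_const_nhds⟩
      · obtain ⟨s, -, hs, ht⟩ := exists_seq_strictMono_tendsto' (pos_iff_ne_zero.2 h0)
        exact ⟨s, fun k => Or.inr (hs k).2, ht⟩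
    choose s hs ht using h1
    refine le_of_tendsto' (tendsto_finsetSum (Finset.range N) fun n _ =>
      ((ENNReal.continuous_rpow_const (y := γ)).tendsto _).comp (ht n)) fun k => ?_
    exact main_step hγ hV hS N (fun n => s n k) fun n => hs n k

end Pool.Agent.Y391.LT
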